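import Mathlib
import Pool.Agent.V1181.RadSol

/-!
# The volume function of radial solutions of `Δ ^ m u = - exp u` is discontinuous

For data `(0, ..., 0, -A, t)` with `A` large the volume never takes values in a fixed interval
although it is small for `t = 0` and large for `t` large.
-/

set_option autoImplicit false

namespace Pool.Agent.Results.MP_c8f9b2_an.Discontinuous

open Real Set Filter MeasureTheory Topology Pool.Agent.V1181

/-- Coefficients of the powers of `r ^ 2` with iterated Laplacian one. -/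
noncomputable def kap (n : ℕ) : ℕ → ℝ
  | 0 => 1
  | (d + 1) => kap n d / ((2 * d + 2) * (n + 2 * d + 1))

theorem kap_succ (n d : ℕ) : kap n (d + 1) = kap n d / ((2 * d + 2) * (n + 2 * d + 1)) := rfl

theorem kap_pos (n d : ℕ) : 0 < kap n d := by
  induction d with
  | zero => exact one_pos
  | succ d ih => unfold kap; positivity

theorem kap_le_one (n d : ℕ) : kap n d ≤ 1 := by
  induction d with
  | zero => exact le_refl _
  | succ d ih =>
    unfold kap
    rw [div_le_one (by positivity)]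
    refine ih.trans ?_
    have h1 : (0 : ℝ) ≤ n := Nat.cast_nonneg n
    have h2 : (0 : ℝ) ≤ d := Nat.cast_nonneg d
    nlinarith

/-- Propagation of upper bounds. -/
theorem upper {n m : ℕ} {w : ℕ → ℝ → ℝ} (hc : ∀ j < m, Chain n (w j) (w (j + 1))) {c R : ℝ} :
    ∀ (d i : ℕ), i + d ≤ m → (∀ l, l < d → w (i + l) 0 ≤ 0) →
      (∀ r, 0 ≤ r → r ≤ R → w (i + d) r ≤ c) →
      ∀ r, 0 ≤ r → r ≤ R → w i r ≤ c * kap n d * r ^ (2 * d) := by
  intro d
  induction d with
  | zero =>
    intro i _ _ h r h0 h1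
    simpa [kap] using h r h0 h1
  | succ d ih =>
    intro i hi hz h r h0 h1
    have h2 := ih (i + 1) (by omega) (fun l hl => by
      have := hz (l + 1) (by omega)
      rwa [show i + (l + 1) = i + 1 + l by omega] at this) (fun r h0 h1 => by
      have := h r h0 h1
      rwa [show i + (d + 1) = i + 1 + d by omega] at this)
    have h3 := (hc i (by omega)).compare (chain_pow n (2 * d) (c * kap n d)) (R := R)
      (fun t t0 t1 => h2 t t0 t1) h0 h1
    have h4 := hz 0 (by omega)
    rw [Nat.add_zero] at h4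
    rw [zero_pow (by omega)] at h3
    have h5 : c * kap n (d + 1) * r ^ (2 * (d + 1))
        = c * kap n d * r ^ (2 * d + 2) / ((((2 * d : ℕ) : ℝ) + 2) * (n + ((2 * d : ℕ) : ℝ) + 1)) := by
      rw [show 2 * (d + 1) = 2 * d + 2 by ring, kap_succ]
      generalize kap n d = κ
      push_cast
      field_simp
    rw [h5]
    simp only [mul_zero, zero_div, sub_zero] at h3
    linarith

section analysis

variable {n m : ℕ} {w : ℕ → ℝ → ℝ} {A t C : ℝ} (hm : 3 ≤ m) (hnm : n + 1 = 2 * m)
  (hc : ∀ j < m, Chain n (w j) (w (j + 1)))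
  (hwm : ∀ r, w m r = - exp (w 0 r)) (hz : ∀ j, j + 2 < m → w j 0 = 0)
  (hA : w (m - 2) 0 = -A) (ht : w (m - 1) 0 = t)

include hm hnm hc hwm

theorem top_anti {s r : ℝ} (hs : 0 ≤ s) (hsr : s ≤ r) : w (m - 1) r ≤ w (m - 1) s := by
  have hch := hc (m - 1) (by omega)
  rw [show m - 1 + 1 = m by omega] at hch
  have := hch.neg.mono' (fun τ _ => by
    rw [hwm, neg_neg]
    exact (exp_pos _).le) hs hsr
  linarith

/-- If the truncated volume is at most `C` then `w (m - 1)` does not decrease much. -/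
theorem top_lower (hY : ∀ r, 0 < r → ∫ τ in (0 : ℝ)..r, τ ^ n * exp (w 0 τ) ≤ C)
    {s r : ℝ} (hs : 0 < s) (hsr : s ≤ r) (hC : 0 ≤ C) :
    w (m - 1) s - C * s⁻¹ ^ (n - 1) ≤ w (m - 1) r := by
  have hch := hc (m - 1) (by omega)
  rw [show m - 1 + 1 = m by omega] at hch
  have hn1 : (0 : ℝ) < (n - 1 : ℕ) := by
    have : 0 < n - 1 := by omega
    exact_mod_cast this
  have hmono : MonotoneOn (fun x => w (m - 1) x - C / (n - 1 : ℕ) * x⁻¹ ^ (n - 1)) (Ici s) := by
    have hd : ∀ x, s < x → HasDerivAt (fun x => w (m - 1) x - C / (n - 1 : ℕ) * x⁻¹ ^ (n - 1))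
        ((∫ τ in (0 : ℝ)..x, τ ^ n * w m τ) / x ^ n
          - C / (n - 1 : ℕ) * ((n - 1 : ℕ) * x⁻¹ ^ (n - 1 - 1) * (-(x ^ 2)⁻¹))) x := by
      intro x hx
      exact (hch.d x (hs.trans hx)).sub
        (((hasDerivAt_inv (hs.trans hx).ne').pow (n - 1)).const_mul _)
    refine monotoneOn_of_deriv_nonneg (convex_Ici s) ?_ ?_ ?_
    · refine hch.cv.continuousOn.sub (continuousOn_const.mul (ContinuousOn.pow ?_ _))
      refine ContinuousOn.inv₀ continuousOn_id fun x hx => ?_
      exact (lt_of_lt_of_le hs hx).ne'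
    · intro x hx
      rw [interior_Ici] at hx
      exact (hd x hx).differentiableAt.differentiableWithinAt
    · intro x hx
      rw [interior_Ici] at hx
      rw [(hd x hx).deriv]
      have hx0 : 0 < x := hs.trans hx
      have h1 := hY x hx0
      have h2 : ∫ τ in (0 : ℝ)..x, τ ^ n * w m τ = - ∫ τ in (0 : ℝ)..x, τ ^ n * exp (w 0 τ) := by
        rw [← intervalIntegral.integral_neg]
        congr 1
        funext τ
        rw [hwm]
        ring
      rw [h2]
      have h3 : C / (n - 1 : ℕ) * ((n - 1 : ℕ) * x⁻¹ ^ (n - 1 - 1) * (-(x ^ 2)⁻¹)) = - (C / x ^ n) := by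
        have h4 : x ^ n = x ^ (n - 1 - 1) * x ^ 2 := by
          rw [← pow_add]
          congr 1
          omega
        rw [h4, inv_pow]
        field_simp
      rw [h3, sub_neg_eq_add, neg_div, ← sub_eq_neg_add, ← sub_div]
      exact div_nonneg (by linarith) (by positivity)
  have h1 := hmono (mem_Ici.2 (le_refl s)) (mem_Ici.2 hsr) hsr
  simp only at h1
  have h2 : 0 ≤ C / (n - 1 : ℕ) * r⁻¹ ^ (n - 1) := by
    have : 0 < r := hs.trans_le hsr
    positivity
  have h3 : C / (n - 1 : ℕ) * s⁻¹ ^ (n - 1) ≤ C * s⁻¹ ^ (n - 1) := by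
    have h4 : (1 : ℝ) ≤ (n - 1 : ℕ) := by
      have : 1 ≤ n - 1 := by omega
      exact_mod_cast this
    have h5 : C / (n - 1 : ℕ) ≤ C := div_le_self hC h4
    gcongr
  linarith

include hz hA ht

/-- For large `t` the volume exceeds `C`. -/
theorem large_t (hA0 : 0 ≤ A) (hC : 1 ≤ C) (ht1 : 4 * C ≤ t) (ht2 : 2 * exp (4 * C) ≤ t) :
    ∃ r, 0 < r ∧ C < ∫ τ in (0 : ℝ)..r, τ ^ n * exp (w 0 τ) := by
  by_contra hcon
  push Not at hcon
  have ht0 : 0 < t := by linarith
  have htop : ∀ r, 0 ≤ r → w (m - 1) r ≤ t := fun r hr => by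
    rw [← ht]
    exact top_anti hm hnm hc hwm (le_refl 0) hr
  have hz' : ∀ l, l < m - 1 → w (0 + l) 0 ≤ 0 := by
    intro l hl
    rw [Nat.zero_add]
    by_cases h : l + 2 < m
    · exact (hz l h).le
    · have : l = m - 2 := by omega
      rw [this, hA]
      linarith
  have hu : ∀ r, 0 ≤ r → w 0 r ≤ t * r ^ (n - 1) := by
    intro r hr
    have h1 := upper hc (c := t) (R := r) (m - 1) 0 (by omega) hz' (fun s h0 _ => by
      rw [Nat.zero_add]
      exact htop s h0) r hr (le_refl r)
    have h2 : 2 * (m - 1) = n - 1 := by omega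
    rw [h2] at h1
    have h3 := kap_le_one n (m - 1)
    have h4 : 0 ≤ t * r ^ (n - 1) := by positivity
    calc w 0 r ≤ t * kap n (m - 1) * r ^ (n - 1) := h1
      _ = kap n (m - 1) * (t * r ^ (n - 1)) := by ring
      _ ≤ 1 * (t * r ^ (n - 1)) := by gcongr
      _ = t * r ^ (n - 1) := one_mul _
  -- the radius
  have hn0 : n - 1 ≠ 0 := by omega
  set r1 : ℝ := (4 * C / t) ^ (((n - 1 : ℕ) : ℝ)⁻¹) with hr1
  have hr1pos : 0 < r1 := Real.rpow_pos_of_pos (by positivity) _
  have hr1pow : r1 ^ (n - 1) = 4 * C / t := Real.rpow_inv_natCast_pow (by positivity) hn0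
  have hr1le : r1 ≤ 1 := by
    by_contra h
    rw [not_le] at h
    have h1 : 1 < r1 ^ (n - 1) := one_lt_pow₀ h hn0
    rw [hr1pow, lt_div_iff₀ ht0] at h1
    linarith
  have hch := hc (m - 1) (by omega)
  rw [show m - 1 + 1 = m by omega] at hch
  have hstep1 : t / 2 + C * r1⁻¹ ^ (n - 1) ≤ w (m - 1) r1 := by
    have h1 := (chain_const n (- exp (4 * C))).compare hch (R := r1) (fun s h0 h1 => by
      rw [hwm]
      have h2 := hu s h0
      have h3 : t * s ^ (n - 1) ≤ 4 * C := by
        calc t * s ^ (n - 1) ≤ t * r1 ^ (n - 1) := by gcongr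
          _ = 4 * C := by rw [hr1pow]; field_simp
      have h4 := Real.exp_le_exp.2 (h2.trans h3)
      linarith) hr1pos.le (le_refl r1)
    rw [ht] at h1
    simp only [zero_pow (two_ne_zero), mul_zero, zero_div, sub_zero] at h1
    have h5 : C * r1⁻¹ ^ (n - 1) = t / 4 := by
      rw [inv_pow, hr1pow]
      field_simp
    have h6 : exp (4 * C) * r1 ^ 2 / (2 * (n + 1)) ≤ t / 4 := by
      have h7 : r1 ^ 2 ≤ 1 := pow_le_one₀ hr1pos.le hr1le
      have h8 : (0 : ℝ) ≤ n := Nat.cast_nonneg n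
      rw [div_le_iff₀ (by positivity)]
      have h9 : exp (4 * C) * r1 ^ 2 ≤ exp (4 * C) * 1 := by gcongr
      nlinarith
    have h10 : -exp (4 * C) * r1 ^ 2 / (2 * (n + 1)) = -(exp (4 * C) * r1 ^ 2 / (2 * (n + 1))) := by
      ring
    rw [h10] at h1
    rw [h5]
    linarith
  refine not_evPos hc (by omega) hwm (j := m - 1) (by omega) ⟨t / 2, by positivity, r1,
    fun r hr => ?_⟩
  have h1 := top_lower hm hnm hc hwm hcon hr1pos hr (by linarith)
  linarith

/-- For moderate `t` and large `A` either the volume exceeds `C` or the second but last Laplacian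
stays very negative. -/
theorem moderate_t (hC : 1 ≤ C) (hAC : 2 * (C + 1) ≤ A) (htA : t ≤ A)
    (hcon : ∀ r, 0 < r → ∫ τ in (0 : ℝ)..r, τ ^ n * exp (w 0 τ) ≤ C) :
    ∀ r, 0 ≤ r → w (m - 2) r ≤ - (A / 2) := by
  by_contra hneg
  push Not at hneg
  obtain ⟨r2, hr2, hlt⟩ := hneg
  have hA0 : 0 < A := by linarith
  have hch1 := hc (m - 1) (by omega)
  rw [show m - 1 + 1 = m by omega] at hch1
  have hch2 := hc (m - 2) (by omega)
  rw [show m - 2 + 1 = m - 1 by omega] at hch2
  have hcw0 : Continuous (w 0) := (hc 0 (by omega)).cv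
  -- first time at which the level is reached
  set Sset : Set ℝ := {r | 0 ≤ r ∧ - (A / 2) ≤ w (m - 2) r} with hS
  have hSne : Sset.Nonempty := ⟨r2, hr2, hlt.le⟩
  have hSb : BddBelow Sset := ⟨0, fun x hx => hx.1⟩
  have hScl : IsClosed Sset :=
    (isClosed_Ici (a := (0 : ℝ))).inter (isClosed_le continuous_const hch2.cv)
  set r0 := sInf Sset with hr0
  have hr0mem : r0 ∈ Sset := hScl.csInf_mem hSne hSb
  have hr00 : 0 ≤ r0 := hr0mem.1
  have hr0pos : 0 < r0 := by
    rcases hr00.eq_or_lt with h | h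
    · exfalso
      have := hr0mem.2
      rw [← h, hA] at this
      linarith
    · exact h
  have hbelow : ∀ s, 0 ≤ s → s ≤ r0 → w (m - 2) s ≤ - (A / 2) := by
    intro s hs hsr
    have hlt' : ∀ s, 0 ≤ s → s < r0 → w (m - 2) s ≤ - (A / 2) := by
      intro s hs hsr
      by_contra h
      rw [not_le] at h
      exact absurd (csInf_le hSb (show s ∈ Sset from ⟨hs, h.le⟩)) (not_le.2 hsr)
    rcases hsr.lt_or_eq with h | h
    · exact hlt' s hs h
    · rw [h]
      have hcont : Tendsto (w (m - 2)) (𝓝[<] r0) (𝓝 (w (m - 2) r0)) :=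
        (hch2.cv.tendsto r0).mono_left nhdsWithin_le_nhds
      refine le_of_tendsto hcont ?_
      filter_upwards [Ioo_mem_nhdsLT hr0pos] with s hs
      exact hlt' s hs.1.le hs.2
  have hu : ∀ s, 0 ≤ s → s ≤ r0 → w 0 s ≤ 0 := by
    intro s h0 h1
    have h2 := upper hc (c := - (A / 2)) (R := r0) (m - 2) 0 (by omega) (fun l hl => by
      rw [Nat.zero_add]
      exact (hz l (by omega)).le) (fun s h0 h1 => by
      rw [Nat.zero_add]
      exact hbelow s h0 h1) s h0 h1
    have h3 := kap_pos n (m - 2)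
    have h4 : 0 ≤ A / 2 * kap n (m - 2) * s ^ (2 * (m - 2)) := by positivity
    linarith
  -- the upper bound for `w (m - 1)` on `[0, r0]`
  have hn5 : 5 ≤ n := by omega
  have hup1 : ∀ s, 0 ≤ s → s ≤ r0 →
      w (m - 1) s ≤ w (m - 1) r0 + 2 * (C + 1) * ((1 + s ^ 2)⁻¹) ^ 2 := by
    have hmono : MonotoneOn (fun x => w (m - 1) x - 2 * (C + 1) * ((1 + x ^ 2)⁻¹) ^ 2)
        (Icc 0 r0) := by
      have hd : ∀ x, 0 < x → HasDerivAt (fun x => w (m - 1) x
          - 2 * (C + 1) * ((1 + x ^ 2)⁻¹) ^ 2)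
          ((∫ τ in (0 : ℝ)..x, τ ^ n * w m τ) / x ^ n
            - 2 * (C + 1) * (2 * (1 + x ^ 2)⁻¹ * (-(2 * x) / (1 + x ^ 2) ^ 2))) x := by
        intro x hx
        have h1 : HasDerivAt (fun x : ℝ => 1 + x ^ 2) (2 * x) x := by
          simpa using (hasDerivAt_pow 2 x).const_add 1
        have h2 := (h1.inv (by positivity)).pow 2
        refine ((hch1.d x hx).sub (h2.const_mul (2 * (C + 1)))).congr_deriv ?_
        simp
      refine monotoneOn_of_deriv_nonneg (convex_Icc 0 r0) ?_ ?_ ?_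
      · refine hch1.cv.continuousOn.sub (continuousOn_const.mul (ContinuousOn.pow ?_ _))
        refine ContinuousOn.inv₀ (by fun_prop) fun x _ => ?_
        positivity
      · intro x hx
        rw [interior_Icc] at hx
        exact (hd x hx.1).differentiableAt.differentiableWithinAt
      · intro x hx
        rw [interior_Icc] at hx
        rw [(hd x hx.1).deriv]
        have hx0 := hx.1
        have h2 : ∫ τ in (0 : ℝ)..x, τ ^ n * w m τ = - ∫ τ in (0 : ℝ)..x, τ ^ n * exp (w 0 τ) := by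
          rw [← intervalIntegral.integral_neg]
          congr 1
          funext τ
          rw [hwm]
          ring
        rw [h2]
        have h3 : 2 * (C + 1) * (2 * (1 + x ^ 2)⁻¹ * (-(2 * x) / (1 + x ^ 2) ^ 2))
            = - (8 * (C + 1) * x / (1 + x ^ 2) ^ 3) := by
          field_simp
          ring
        rw [h3, sub_neg_eq_add, neg_div]
        have h4 : (∫ τ in (0 : ℝ)..x, τ ^ n * exp (w 0 τ)) / x ^ n
            ≤ 8 * (C + 1) * x / (1 + x ^ 2) ^ 3 := by
          rcases le_total x 1 with hx1 | hx1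
          · have h5 : ∫ τ in (0 : ℝ)..x, τ ^ n * exp (w 0 τ) ≤ ∫ τ in (0 : ℝ)..x, τ ^ n := by
              refine intervalIntegral.integral_mono_on hx0.le
                (Continuous.intervalIntegrable (by fun_prop) _ _)
                (Continuous.intervalIntegrable (by fun_prop) _ _) fun τ hτ => ?_
              have h6 : exp (w 0 τ) ≤ 1 :=
                Real.exp_le_one_iff.2 (hu τ hτ.1 (hτ.2.trans hx.2.le))
              have h7 : 0 ≤ τ ^ n := pow_nonneg hτ.1 _
              nlinarith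
            rw [integral_pow, zero_pow (by omega), sub_zero] at h5
            have h8 : (1 + x ^ 2) ^ 3 ≤ 8 := by
              have h9 : 1 + x ^ 2 ≤ 2 := by nlinarith
              calc (1 + x ^ 2) ^ 3 ≤ 2 ^ 3 := by gcongr
                _ = 8 := by norm_num
            have h10 : (∫ τ in (0 : ℝ)..x, τ ^ n * exp (w 0 τ)) / x ^ n ≤ x := by
              rw [div_le_iff₀ (by positivity)]
              refine h5.trans ?_
              have h11 : (1 : ℝ) ≤ n + 1 := by
                have : (0 : ℝ) ≤ n := Nat.cast_nonneg n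
                linarith
              calc x ^ (n + 1) / (n + 1) ≤ x ^ (n + 1) := div_le_self (by positivity) h11
                _ = x * x ^ n := by ring
            refine h10.trans ?_
            rw [le_div_iff₀ (by positivity)]
            calc x * (1 + x ^ 2) ^ 3 ≤ x * 8 := by gcongr
              _ ≤ 8 * (C + 1) * x := by nlinarith
          · have h5 := hcon x hx0
            have h8 : (1 + x ^ 2) ^ 3 ≤ 8 * x ^ 6 := by
              have h9 : 1 + x ^ 2 ≤ 2 * x ^ 2 := by nlinarith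
              calc (1 + x ^ 2) ^ 3 ≤ (2 * x ^ 2) ^ 3 := by gcongr
                _ = 8 * x ^ 6 := by ring
            have h10 : x ^ 5 ≤ x ^ n := pow_le_pow_right₀ hx1 hn5
            calc (∫ τ in (0 : ℝ)..x, τ ^ n * exp (w 0 τ)) / x ^ n ≤ C / x ^ n := by gcongr
              _ ≤ C / x ^ 5 := by gcongr
              _ ≤ (C + 1) / x ^ 5 := by gcongr; linarith
              _ = 8 * (C + 1) * x / (8 * x ^ 6) := by
                field_simp
              _ ≤ 8 * (C + 1) * x / (1 + x ^ 2) ^ 3 := by gcongr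
        linarith
    intro s h0 h1
    have h2 := hmono ⟨h0, h1⟩ ⟨hr00, le_refl r0⟩ h1
    simp only at h2
    have h3 : 0 ≤ 2 * (C + 1) * ((1 + r0 ^ 2)⁻¹) ^ 2 := by positivity
    linarith
  -- the comparison function
  set q := w (m - 1) r0 with hq
  have hchf : Chain n (fun x => - (C + 1) / 2 * (1 + x ^ 2)⁻¹)
      (fun x => (C + 1) / 2 * (2 * ((1 + x ^ 2)⁻¹) ^ 3 * ((n + 1) * (1 + x ^ 2) - 4 * x ^ 2))) := by
    have hpos : ∀ x : ℝ, 1 + x ^ 2 ≠ 0 := fun x => by positivity
    have hinv : Continuous fun x : ℝ => (1 + x ^ 2)⁻¹ := Continuous.inv₀ (by fun_prop) hpos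
    have hd1 : ∀ x : ℝ, HasDerivAt (fun x : ℝ => (1 + x ^ 2)⁻¹) (-(2 * x) / (1 + x ^ 2) ^ 2) x := by
      intro x
      have h1 : HasDerivAt (fun x : ℝ => 1 + x ^ 2) (2 * x) x := by
        simpa using (hasDerivAt_pow 2 x).const_add 1
      exact h1.inv (hpos x)
    refine ⟨continuous_const.mul hinv, by fun_prop, fun r hr => ?_⟩
    refine ((hd1 r).const_mul (- (C + 1) / 2)).congr_deriv ?_
    have hF : ∀ x ∈ uIcc 0 r, HasDerivAt (fun x : ℝ => (C + 1) * x ^ (n + 1) * ((1 + x ^ 2)⁻¹) ^ 2)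
        (x ^ n * ((C + 1) / 2 * (2 * ((1 + x ^ 2)⁻¹) ^ 3 * ((n + 1) * (1 + x ^ 2) - 4 * x ^ 2)))) x := by
      intro x _
      have h2 := (((hasDerivAt_pow (n + 1) x).const_mul (C + 1)).mul ((hd1 x).pow 2))
      refine h2.congr_deriv ?_
      have h3 := hpos x
      rw [Nat.add_sub_cancel]
      push_cast
      simp only [Pi.pow_apply]
      rw [pow_succ x n]
      field_simp
      ring
    rw [intervalIntegral.integral_eq_sub_of_hasDerivAt hF
      (Continuous.intervalIntegrable (by fun_prop) _ _)]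
    have h3 := hpos r
    rw [zero_pow (by omega)]
    field_simp
    ring
  have hmain := hch2.compare (v' := fun x => q * x ^ 2 / (2 * (n + 1))
      + (- (C + 1) / 2 * (1 + x ^ 2)⁻¹))
    (w' := fun x => q + (C + 1) / 2 * (2 * ((1 + x ^ 2)⁻¹) ^ 3
      * ((n + 1) * (1 + x ^ 2) - 4 * x ^ 2))) ?_ (R := r0) ?_ hr00 (le_refl r0)
  · have h1 := hr0mem.2
    rw [hA] at hmain
    have h2 : 0 ≤ (C + 1) / 2 * (1 + r0 ^ 2)⁻¹ := by positivity
    have h3 : (1 + (0 : ℝ) ^ 2)⁻¹ = 1 := by norm_num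
    rw [h3] at hmain
    have h4 : (A + C + 1) / 2 - (C + 1) ≤ q * r0 ^ 2 / (2 * (n + 1)) := by
      simp only [zero_pow two_ne_zero, mul_zero, zero_div] at hmain
      linarith
    have h5 : A / 4 ≤ q * r0 ^ 2 / (2 * (n + 1)) := by linarith
    rw [le_div_iff₀ (by positivity)] at h5
    have hn6 : (6 : ℝ) ≤ n + 1 := by
      have : (5 : ℝ) ≤ n := by exact_mod_cast hn5
      linarith
    have h6 : 3 * A ≤ q * r0 ^ 2 := by nlinarith
    have hqpos : 0 < q := by
      by_contra h
      rw [not_lt] at h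
      have := mul_nonpos_of_nonpos_of_nonneg h (sq_nonneg r0)
      linarith
    have hqt : q ≤ t := by
      rw [← ht]
      exact top_anti hm hnm hc hwm (le_refl 0) hr00
    have hr1 : 1 ≤ r0 := by
      by_contra h
      rw [not_le] at h
      have h7 : r0 ^ 2 ≤ 1 := pow_le_one₀ hr00 h.le
      nlinarith
    refine not_evPos hc (by omega) hwm (j := m - 1) (by omega)
      ⟨q - C * r0⁻¹ ^ (n - 1), ?_, r0, fun r hr => ?_⟩
    · have h8 : r0⁻¹ ^ (n - 1) ≤ r0⁻¹ ^ 2 := by
        refine pow_le_pow_of_le_one (by positivity) ?_ (by omega)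
        exact inv_le_one_of_one_le₀ hr1
      have h9 : C * r0⁻¹ ^ (n - 1) ≤ C * r0⁻¹ ^ 2 := by gcongr
      have h10 : C * r0⁻¹ ^ 2 < q := by
        rw [inv_pow, ← div_eq_mul_inv, div_lt_iff₀ (by positivity)]
        linarith
      linarith
    · have := top_lower hm hnm hc hwm hcon hr0pos hr (by linarith)
      linarith
  · have h1 := chain_const n q
    refine ⟨h1.cv.add hchf.cv, h1.cw.add hchf.cw, fun r hr => ?_⟩
    refine ((h1.d r hr).add (hchf.d r hr)).congr_deriv ?_
    have c1 := h1.cw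
    have c2 := hchf.cw
    rw [← add_div, ← intervalIntegral.integral_add (Continuous.intervalIntegrable (by fun_prop) _ _)
      (Continuous.intervalIntegrable (by fun_prop) _ _)]
    congr 2
    funext τ
    ring
  · intro s h0 h1
    have h2 := hup1 s h0 h1
    refine h2.trans ?_
    have hn6 : (6 : ℝ) ≤ n + 1 := by
      have : (5 : ℝ) ≤ n := by exact_mod_cast hn5
      linarith
    have h3 : 2 * ((1 + s ^ 2)⁻¹) ^ 2
        ≤ 1 / 2 * (2 * ((1 + s ^ 2)⁻¹) ^ 3 * ((n + 1) * (1 + s ^ 2) - 4 * s ^ 2)) := by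
      have h4 : 2 * (1 + s ^ 2) ≤ (n + 1) * (1 + s ^ 2) - 4 * s ^ 2 := by nlinarith [sq_nonneg s]
      have h5 : ((1 + s ^ 2)⁻¹) ^ 2 = ((1 + s ^ 2)⁻¹) ^ 3 * (1 + s ^ 2) := by
        field_simp
      have h6 : 0 ≤ ((1 + s ^ 2)⁻¹) ^ 3 := by positivity
      rw [h5]
      nlinarith
    have h7 : 0 ≤ C + 1 := by linarith
    nlinarith

end analysis

/-- For every `m ≥ 3` the radial solutions exist for all data and have finite volume, and the volume
is a discontinuous function of the data. -/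
theorem result : ∀ m : ℕ, 3 ≤ m → (∀ a : Fin m → ℝ, ∃ U, IsSol m a U) ∧
    (∀ (a : Fin m → ℝ) (U), IsSol m a U → Integrable fun x => exp (U x)) ∧
    ∀ V : (Fin m → ℝ) → ℝ, (∀ a, ∃ U, IsSol m a U ∧ V a = ∫ x, exp (U x)) → ¬ Continuous V := by
  intro m hm
  obtain ⟨e, he⟩ := exists_unit (show 1 ≤ m by omega)
  refine ⟨fun a => exists_isSol (by omega) a,
    fun a U h => (sol_integrable (by omega) h he).2.1, ?_⟩
  intro V hV hcont
  set n := 2 * m - 1 with hn
  have hnm : n + 1 = 2 * m := by omega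
  set ω : ℝ := ((2 * m - 1 + 1 : ℕ) *
      (volume : Measure (EuclideanSpace ℝ (Fin (2 * m)))).real (Metric.ball 0 1)) with hω
  have hωpos : 0 < ω := by
    have h1 : 0 < (volume : Measure (EuclideanSpace ℝ (Fin (2 * m)))).real (Metric.ball 0 1) := by
      rw [measureReal_def, ENNReal.toReal_pos_iff]
      exact ⟨Metric.measure_ball_pos _ _ one_pos, measure_ball_lt_top⟩
    positivity
  set κ := kap n (m - 2) with hκ
  have hκpos : 0 < κ := kap_pos _ _
  have hint : IntegrableOn (fun t : ℝ => t ^ n * exp (1 * (- κ * t ^ (2 * (m - 2))))) (Ioi 0) := by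
    refine integrable_of_quadratic (by fun_prop) one_pos hκpos (R := 1) fun r hr => ?_
    have h1 : r ^ 2 ≤ r ^ (2 * (m - 2)) := pow_le_pow_right₀ hr (by omega)
    nlinarith
  simp only [one_mul] at hint
  set Ys := ∫ t in Ioi (0 : ℝ), t ^ n * exp (- κ * t ^ (2 * (m - 2))) with hYs
  have hYs0 : 0 ≤ Ys := by
    refine setIntegral_nonneg measurableSet_Ioi fun t ht => ?_
    have : (0 : ℝ) < t := ht
    positivity
  set C := Ys + 1 with hC
  have hC1 : 1 ≤ C := by linarith
  set t0 := max (4 * C) (2 * exp (4 * C)) with ht0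
  set A := max (2 * (C + 1)) t0 with hA
  have hA2 : 2 ≤ A := by
    have : 2 * (C + 1) ≤ A := le_max_left _ _
    linarith
  have ht0pos : 0 < t0 := lt_of_lt_of_le (by linarith) (le_max_left (4 * C) _)
  set path : ℝ → Fin m → ℝ := fun t i =>
    if (i : ℕ) = m - 2 then -A else if (i : ℕ) = m - 1 then t else 0 with hpath
  have hpc : Continuous path := by
    refine continuous_pi fun i => ?_
    simp only [hpath]
    split_ifs
    · exact continuous_const
    · exact continuous_id
    · exact continuous_const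
  -- facts about a solution on the path
  have facts : ∀ (t : ℝ) (U), IsSol m (path t) U →
      (∀ j < m, Chain n (fun s : ℝ => lapIter j U (s • e)) (fun s : ℝ => lapIter (j + 1) U (s • e))) ∧
      (∀ r : ℝ, lapIter m U (r • e) = - exp (lapIter 0 U (r • e))) ∧
      (∀ j, j + 2 < m → lapIter j U ((0 : ℝ) • e) = 0) ∧
      lapIter (m - 2) U ((0 : ℝ) • e) = -A ∧ lapIter (m - 1) U ((0 : ℝ) • e) = t := by
    intro t U h
    obtain ⟨h1, h2, h3⟩ := sol_chain (by omega) h he
    refine ⟨h1, h2, fun j hj => ?_, ?_, ?_⟩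
    · have := h3 ⟨j, by omega⟩
      simp only [hpath] at this
      rw [if_neg (by omega), if_neg (by omega)] at this
      exact this
    · have := h3 ⟨m - 2, by omega⟩
      simp only [hpath] at this
      rwa [if_true] at this
    · have := h3 ⟨m - 1, by omega⟩
      simp only [hpath] at this
      rwa [if_neg (by omega), if_true] at this
  have small : ∀ (t : ℝ) (U), IsSol m (path t) U →
      (∀ r : ℝ, 0 ≤ r → lapIter (m - 2) U (r • e) ≤ -1) → ∫ x, exp (U x) ≤ ω * Ys := by
    intro t U h hle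
    obtain ⟨h1, h2, h3, h4, h5⟩ := facts t U h
    obtain ⟨i1, -, i3⟩ := sol_integrable (by omega) h he
    rw [i3]
    refine mul_le_mul_of_nonneg_left ?_ hωpos.le
    refine setIntegral_mono_on i1 hint measurableSet_Ioi fun r hr => ?_
    have hr0 : (0 : ℝ) ≤ r := le_of_lt hr
    have h6 := upper (w := fun j s => lapIter j U (s • e)) h1 (c := -1) (R := r) (m - 2) 0
      (by omega) (fun l hl => by
        rw [Nat.zero_add]
        exact (h3 l (by omega)).le) (fun s s0 _ => by
        rw [Nat.zero_add]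
        exact hle s s0) r hr0 (le_refl r)
    have h7 : U (r • e) ≤ - κ * r ^ (2 * (m - 2)) := by
      have h8 : lapIter 0 U (r • e) = U (r • e) := rfl
      rw [h8, neg_one_mul] at h6
      exact h6
    gcongr
  have big : ∀ (t : ℝ) (U), IsSol m (path t) U →
      (∃ r : ℝ, 0 < r ∧ C < ∫ τ in (0 : ℝ)..r, τ ^ n * exp (lapIter 0 U (τ • e))) →
      ω * C < ∫ x, exp (U x) := by
    intro t U h hex
    obtain ⟨r, hr, hlt⟩ := hex
    obtain ⟨i1, -, i3⟩ := sol_integrable (by omega) h he
    rw [i3]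
    have h5 : ∫ τ in (0 : ℝ)..r, τ ^ n * exp (U (τ • e))
        ≤ ∫ τ in Ioi (0 : ℝ), τ ^ n * exp (U (τ • e)) := by
      rw [intervalIntegral.integral_of_le hr.le]
      refine setIntegral_mono_set i1 ?_ Ioc_subset_Ioi_self.eventuallyLE
      refine (ae_restrict_mem measurableSet_Ioi).mono fun t ht => ?_
      have : (0 : ℝ) < t := ht
      positivity
    have h6 : C < ∫ τ in Ioi (0 : ℝ), τ ^ n * exp (U (τ • e)) := lt_of_lt_of_le hlt h5
    exact mul_lt_mul_of_pos_left h6 hωpos
  have dich : ∀ t, t ≤ t0 → V (path t) ≤ ω * Ys ∨ ω * C < V (path t) := by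
    intro t ht
    obtain ⟨U, hU, hVU⟩ := hV (path t)
    rw [hVU]
    obtain ⟨h1, h2, h3, h4, h5⟩ := facts t U hU
    by_cases hex : ∃ r : ℝ, 0 < r ∧ C < ∫ τ in (0 : ℝ)..r, τ ^ n * exp (lapIter 0 U (τ • e))
    · exact Or.inr (big t U hU hex)
    · push Not at hex
      left
      refine small t U hU fun r hr => ?_
      have := moderate_t (w := fun j s => lapIter j U (s • e)) hm hnm h1 h2 h3 h4 h5 hC1
        (le_max_left _ _) (ht.trans (le_max_right _ _)) hex r hr
      linarith
  have h0 : V (path 0) ≤ ω * Ys := by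
    obtain ⟨U, hU, hVU⟩ := hV (path 0)
    rw [hVU]
    obtain ⟨h1, h2, h3, h4, h5⟩ := facts 0 U hU
    refine small 0 U hU fun r hr => ?_
    have htop : ∀ s : ℝ, 0 ≤ s → lapIter (m - 1) U (s • e) ≤ 0 := fun s hs => by
      have := top_anti (w := fun j s => lapIter j U (s • e)) hm hnm h1 h2 (le_refl 0) hs
      rwa [h5] at this
    have hch := h1 (m - 2) (by omega)
    rw [show m - 2 + 1 = m - 1 by omega] at hch
    have := hch.neg.mono' (fun s hs => by linarith [htop s hs]) (le_refl 0) hr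
    rw [h4] at this
    linarith
  have h1 : ω * C < V (path t0) := by
    obtain ⟨U, hU, hVU⟩ := hV (path t0)
    rw [hVU]
    obtain ⟨h1, h2, h3, h4, h5⟩ := facts t0 U hU
    exact big t0 U hU (large_t (w := fun j s => lapIter j U (s • e)) hm hnm h1 h2 h3 h4 h5
      (by linarith) hC1 (le_max_left _ _) (le_max_right _ _))
  have hIVT := intermediate_value_Icc ht0pos.le ((hcont.comp hpc).continuousOn (s := Icc 0 t0))
  have hmem : ω * (Ys + 1 / 2) ∈ Icc ((V ∘ path) 0) ((V ∘ path) t0) := by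
    constructor
    · refine h0.trans ?_
      gcongr
      linarith
    · refine le_trans ?_ h1.le
      gcongr
      linarith
  obtain ⟨t, ht, hVt⟩ := hIVT hmem
  simp only [Function.comp_apply] at hVt
  rcases dich t ht.2 with h | h
  · rw [hVt] at h
    nlinarith
  · rw [hVt] at h
    nlinarith

end Pool.Agent.Results.MP_c8f9b2_an.Discontinuous
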