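import Mathlib
import Pool.Agent.V1181.RadSol

/-!
# Finite volume for radial solutions of `Δ ^ m u = - exp u` on `ℝ ^ (2 m)`
-/

set_option autoImplicit false

namespace Pool.Agent.Results.MP_c8f9b2_an.FiniteVolume

open Real MeasureTheory Pool.Agent.V1181

/-- For every `m ≥ 3` and all data `a` the radial solution exists and has finite volume. -/
theorem result : ∀ m : ℕ, 3 ≤ m → ∀ a : Fin m → ℝ, (∃ U, IsSol m a U) ∧
    ∀ U, IsSol m a U → Integrable fun x => exp (U x) := by
  intro m hm a
  obtain ⟨e, he⟩ := exists_unit (show 1 ≤ m by omega)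
  exact ⟨exists_isSol (by omega) a, fun U h => (sol_integrable (by omega) h he).2.1⟩

end Pool.Agent.Results.MP_c8f9b2_an.FiniteVolume
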